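import Mathlib
import Pool.Agent.Helper38.Trs2.Nine

/-!
At least six of the nine numbers are transcendental, or exactly five are and then the four algebraic
ones are one of four explicit sets.
-/

set_option autoImplicit false

namespace Pool.Agent.Results.MP_a2f59b_nt.NineNumbers

open Real

/-- Among the nine numbers `π + e, π - e, π e, π / e, π ^ π, e ^ e, π ^ e, π ^ √2, e ^ (π ^ 2)`
(numbered `0, …, 8`) at least six are transcendental, unless exactly five are and the four algebraic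
ones are `π ^ π, e ^ e, π ^ e, e ^ (π ^ 2)`, or `e ^ e, π ^ e, π ^ √2, e ^ (π ^ 2)`, or
`π + e, π ^ π, π ^ e, π ^ √2` with `(π + e) / √2` rational, or `π - e, π ^ π, π ^ e, π ^ √2` with
`(π - e) / √2` rational. -/
theorem result :
    let x : Fin 9 → ℝ := ![π + exp 1, π - exp 1, π * exp 1, π / exp 1, π ^ π, exp 1 ^ exp 1,
      π ^ exp 1, π ^ √2, exp 1 ^ (π ^ 2)]
    6 ≤ {i | Transcendental ℤ (x i)}.ncard ∨
      {i | IsAlgebraic ℤ (x i)} = {4, 5, 6, 8} ∨
      {i | IsAlgebraic ℤ (x i)} = {5, 6, 7, 8} ∨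
      ({i | IsAlgebraic ℤ (x i)} = {0, 4, 6, 7} ∧ ∃ r : ℚ, π + exp 1 = r * √2) ∨
      ({i | IsAlgebraic ℤ (x i)} = {1, 4, 6, 7} ∧ ∃ r : ℚ, π - exp 1 = r * √2) :=
  Pool.Agent.Helper38.Trs2.nine_numbers

end Pool.Agent.Results.MP_a2f59b_nt.NineNumbers
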