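import Pool.Agent.Helper17.Trs2.All

/-!
If `πe` is algebraic, then at least seven of the other eight numbers are transcendental.
-/

set_option autoImplicit false

namespace Pool.Agent.Results.MP_a2f59b_nt.PiTimesE

open Real

/-- If `π e` is algebraic, then at least seven of the eight numbers `π + e, π - e, π / e, π ^ π,
e ^ e, π ^ e, π ^ √2, e ^ (π ^ 2)` are transcendental. -/
theorem result (h : IsAlgebraic ℤ (π * exp 1)) :
    7 ≤ {i : Fin 8 | Transcendental ℤ
      ((![π + exp 1, π - exp 1, π / exp 1, π ^ π, exp 1 ^ exp 1, π ^ exp 1, π ^ √2,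
        exp 1 ^ (π ^ 2)] : Fin 8 → ℝ) i)}.ncard :=
  Trs2.seven_of_eight h

end Pool.Agent.Results.MP_a2f59b_nt.PiTimesE
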